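import Pool.Agent.L0h45.AV.Stm4
import Pool.Agent.N426.PM.GLR

/-!
# Module FARe of the project AV: a point whose order does not divide four, at every place

Adapted from `Pool.Agent.N426.PM.GLR`.
-/

set_option autoImplicit false
set_option linter.all false

open Polynomial IsDedekindDomain WeierstrassCurve WeierstrassCurve.Affine
open Pool.Agent.TH115.GD Pool.Agent.N874.PP Pool.Agent.N199.PP
open scoped Classical

namespace Pool.Agent.L0h41.AV

open Pool.Agent.N630.PP Pool.Agent.N352.PP Pool.Agent.N426.PM Pool.Agent.L0h45.AV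

section far

variable {M R : Type} [Field M] [CommRing R] [IsDedekindDomain R] [Algebra R M]
  [IsFractionRing R M] (v : HeightOneSpectrum R)

/-- a point whose order does not divide four -/
theorem fare (hhen : ∀ w : v.adicCompletion M, Valued.v w < 1 → ∃ z : v.adicCompletion M, Valued.v z < 1 ∧ z ^ 2 + z = w)
    (A B : M) (h6 : (6 : M) ≠ 0) (hD : 4 * A ^ 3 + 27 * B ^ 2 ≠ 0) :
    ∃ P0 : Pt (sW A B) (Comp R M v), (2 : ℕ) • (2 : ℕ) • P0 ≠ 0 := by
  obtain ⟨s, hs0, hsA, hsB⟩ := exists_small (A / 4) (B / 4) v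
  obtain ⟨F, hF⟩ : ∃ F : M →+* v.adicCompletion M, F = algebraMap M (v.adicCompletion M) :=
    ⟨_, rfl⟩
  have hvF : ∀ x, vv v (F x) = v.valuation M x := fun x => by rw [hF]; exact vv_coe v x
  have hS := isS (Ω := Comp R M v) h6 hD
  have hs' : F s ≠ 0 := (_root_.map_ne_zero _).2 hs0
  have h4M : (4 : M) ≠ 0 := by
    intro h
    apply h6
    have h22 : (2 : M) * 2 = 0 := by linear_combination h
    have h2 : (2 : M) = 0 := by
      rcases mul_eq_zero.1 h22 with h | h <;> exact h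
    linear_combination 3 * h2
  have h4le : vv v (4 : v.adicCompletion M) ≤ 1 := by
    have e1 : (4 : v.adicCompletion M) = F (algebraMap R M 4) := by
      rw [map_ofNat, map_ofNat]
    rw [e1, hvF]
    exact v.valuation_le_one 4
  have h2le : vv v (2 : v.adicCompletion M) ≤ 1 := by
    have e1 : (2 : v.adicCompletion M) = F (algebraMap R M 2) := by
      rw [map_ofNat, map_ofNat]
    rw [e1, hvF]
    exact v.valuation_le_one 2
  have hA4' : vv v (F (A / 4) * F s ^ 4) < 1 := by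
    rw [← map_pow, ← map_mul, hvF]
    exact hsA
  have hB6' : vv v (F (B / 4) * F s ^ 6) < 1 := by
    rw [← map_pow, ← map_mul, hvF]
    exact hsB
  have eA : F A = 4 * F (A / 4) := by
    have : A = 4 * (A / 4) := by field_simp
    conv_lhs => rw [this, map_mul, map_ofNat]
  have eB : F B = 4 * F (B / 4) := by
    have : B = 4 * (B / 4) := by field_simp
    conv_lhs => rw [this, map_mul, map_ofNat]
  have hA4 : vv v (F A * F s ^ 4) < 1 := by
    rw [eA, mul_assoc, map_mul]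
    exact lt_of_le_of_lt ((mul_le_mul_left h4le _).trans (le_of_eq (one_mul _))) hA4'
  have hB6 : vv v (F B * F s ^ 6) < 1 := by
    rw [eB, mul_assoc, map_mul]
    exact lt_of_le_of_lt ((mul_le_mul_left h4le _).trans (le_of_eq (one_mul _))) hB6'
  have h3 : vv v (3 : v.adicCompletion M) ≤ 1 := by
    have e1 : (3 : v.adicCompletion M) = F (algebraMap R M 3) := by
      rw [map_ofNat, map_ofNat]
    rw [e1, hvF]
    exact v.valuation_le_one 3
  obtain ⟨z', hz'1, hz'⟩ := hhen (F (A / 4) * F s ^ 4 + F (B / 4) * F s ^ 6) (Valuation.map_add_lt _ hA4' hB6')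
  obtain ⟨z, hzd⟩ : ∃ z, z = 1 + 2 * z' := ⟨_, rfl⟩
  have hz : z ^ 2 = 1 + F A * F s ^ 4 + F B * F s ^ 6 := by
    rw [hzd, eA, eB]
    linear_combination 4 * hz'
  have hz1 : vv v (z - 1) < 1 := by
    have e1 : z - 1 = 2 * z' := by rw [hzd]; ring
    rw [e1, map_mul]
    exact lt_of_le_of_lt ((mul_le_mul_left h2le _).trans (le_of_eq (one_mul _))) hz'1
  have hz0 : z ≠ 0 := by
    rintro rfl
    rw [zero_sub, Valuation.map_neg, map_one] at hz1
    exact lt_irrefl _ hz1
  obtain ⟨x0, hx0⟩ : ∃ x0 : Comp R M v, x0 = (F s ^ 2)⁻¹ := ⟨_, rfl⟩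
  obtain ⟨y0, hy0⟩ : ∃ y0 : Comp R M v, y0 = z * (F s ^ 3)⁻¹ := ⟨_, rfl⟩
  have hy00 : y0 ≠ 0 := by
    rw [hy0]
    exact mul_ne_zero hz0 (inv_ne_zero (pow_ne_zero _ hs'))
  have hns : ((sW A B).baseChange (Comp R M v)).toAffine.Nonsingular x0 y0 := by
    have heq : (z * (F s ^ 3)⁻¹) ^ 2 = ((F s ^ 2)⁻¹) ^ 3 + F A * (F s ^ 2)⁻¹ + F B := by
      rw [mul_pow, hz]
      field_simp
    rw [hF] at heq
    rw [hS.nonsingular, hx0, hy0, hF]
    exact heq
  refine ⟨Point.some x0 y0 hns, fun h4 => ?_⟩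
  have h2P : (2 : ℕ) • (Point.some x0 y0 hns : Pt (sW A B) (Comp R M v)) ≠ 0 := by
    rw [two_nsmul]
    intro h
    exact hy00 ((add_self_eq_zero_iff hS hns).1 h)
  rcases tor_cases h6 hD _ h4 with h | ⟨e, he, hT, hR⟩
  · exact h2P h
  obtain ⟨X, Y, hXY, h5, h7⟩ := gp1 M (Comp R M v) A B h6 hD _ h2P
  rw [hT] at h5
  have hXe : e = X := (Point.some.inj h5).1
  have h8 := h7 e hR
  rw [← hXe, sub_self] at h8
  have h9 : rr e (Point.some x0 y0 hns : Pt (sW A B) (Comp R M v)) = 0 :=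
    pow_eq_zero_iff (two_ne_zero) |>.1 h8
  have h10 : (x0 - e) ^ 2 - (3 * e ^ 2 + algebraMap M (Comp R M v) A) = 0 := by
    have h11 : ((x0 - e) ^ 2 - (3 * e ^ 2 + algebraMap M (Comp R M v) A)) / (2 * y0) = 0 := h9
    rcases div_eq_zero_iff.1 h11 with h | h
    · exact h
    · exact absurd h (mul_ne_zero hS.two hy00)
  obtain ⟨e', he'⟩ : ∃ e' : v.adicCompletion M, e' = e := ⟨_, rfl⟩
  have hR' : e' ^ 3 + F A * e' + F B = 0 := by
    rw [he', hF]
    exact hR
  have h10' : ((F s ^ 2)⁻¹ - e') ^ 2 - (3 * e' ^ 2 + F A) = 0 := by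
    rw [he', hF]
    rw [hx0, hF] at h10
    exact h10
  obtain ⟨u, hu⟩ : ∃ u, u = F s ^ 2 * e' := ⟨_, rfl⟩
  have hu1 : u ^ 3 + (F A * F s ^ 4) * u + F B * F s ^ 6 = 0 := by
    rw [hu]
    linear_combination F s ^ 6 * hR'
  have hu2 : (1 - u) ^ 2 = 3 * u ^ 2 + F A * F s ^ 4 := by
    rw [hu]
    have e1 : (1 - F s ^ 2 * e') ^ 2 = F s ^ 4 * ((F s ^ 2)⁻¹ - e') ^ 2 := by
      field_simp
    rw [e1]
    linear_combination F s ^ 4 * h10'
  have hu3 : vv v u < 1 := by
    by_contra hcon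
    push Not at hcon
    have e1 : u ^ 3 = -((F A * F s ^ 4) * u + F B * F s ^ 6) := by linear_combination hu1
    have e2 : vv v (u ^ 3) < vv v u ^ 3 := by
      rw [e1, Valuation.map_neg]
      apply Valuation.map_add_lt
      · rw [map_mul]
        calc vv v (F A * F s ^ 4) * vv v u < 1 * vv v u :=
              mul_lt_mul_of_pos_right hA4 (lt_of_lt_of_le zero_lt_one hcon)
          _ = vv v u ^ 1 := by rw [one_mul, pow_one]
          _ ≤ vv v u ^ 3 := pow_le_pow_right₀ hcon (by norm_num)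
      · exact lt_of_lt_of_le hB6 (one_le_pow₀ hcon)
    rw [map_pow] at e2
    exact lt_irrefl _ e2
  have hu4 : vv v ((1 - u) ^ 2) < 1 := by
    rw [hu2]
    apply Valuation.map_add_lt
    · rw [map_mul, map_pow]
      calc vv v 3 * vv v u ^ 2 ≤ 1 * vv v u ^ 2 := mul_le_mul_left h3 _
        _ = vv v u ^ 2 := one_mul _
        _ < 1 := pow_lt_one₀ zero_le hu3 (by norm_num)
    · exact hA4
  have hu5 : vv v (1 - u) = 1 := by
    have := Valuation.map_sub_eq_of_lt_right (vv v) (x := u) (y := 1) (by rwa [map_one])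
    rw [Valuation.map_sub_swap, this, map_one]
  rw [map_pow, hu5, one_pow] at hu4
  exact lt_irrefl _ hu4

end far

theorem t_FARe (h : S_HENe) : S_FARe := by
  intro M R _ _ _ _ _ A B h6 hD v
  exact fare v (fun w hw => h M R v w hw) A B h6 hD

end Pool.Agent.L0h41.AV
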