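import Pool.Agent.L0h45.AV.Stm4
import Pool.Agent.N426.PM.GLR

/-!
# Module GLRe of the project AV: the local condition, at every place

Adapted from `Pool.Agent.N426.PM.GLR`.
-/

set_option autoImplicit false
set_option linter.all false

open Polynomial IsDedekindDomain WeierstrassCurve WeierstrassCurve.Affine
open Pool.Agent.TH115.GD Pool.Agent.N874.PP Pool.Agent.N199.PP
open scoped Classical

namespace Pool.Agent.L0h41.AV

open Pool.Agent.N630.PP Pool.Agent.N352.PP Pool.Agent.N426.PM Pool.Agent.L0h45.AV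

/-- (GLR) the local condition -/
theorem glre (h1 : S_GP1) (h2 : S_GP2) (h3 : S_GP3) (h4 : S_GP4) (hfar : S_FARe) : S_GLRe := by
  intro M R _ _ _ _ _ A B h6' hD f hf hf2 β h hβ hh v hloc
  obtain ⟨ι, P₁, hP₁⟩ := hloc
  obtain ⟨Z, hZ3, hZ⟩ := exists_Z (Ω := Sep M) A B hD
  obtain ⟨ι', hι'⟩ : ∃ ι' : Sep M →ₐ[M] Sep (Comp R M v), ι' = ι.restrictScalars M := ⟨_, rfl⟩
  have hιx : ∀ x, ι x = ι' x := fun x => by rw [hι']; rfl
  simp only [hιx] at hP₁
  rw [← hι'] at hP₁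
  have hres : ∀ τ : Sep (Comp R M v) ≃ₐ[Comp R M v] Sep (Comp R M v),
      ∃ σ : Sep M ≃ₐ[M] Sep M, ∀ x, τ (ι' x) = ι' (σ x) := fun τ => exists_res ι' τ
  -- the points of order two
  have hT2 : ∀ σ : Sep M ≃ₐ[M] Sep M, (2 : ℕ) • act (sW A B) ι' (f σ) = 0 := by
    intro σ
    rw [← map_nsmul, hf2, map_zero]
  -- a point `P` with `4 P ≠ 0`
  obtain ⟨P, h4P, hTP⟩ : ∃ P : Pt (sW A B) (Sep (Comp R M v)), (2 : ℕ) • (2 : ℕ) • P ≠ 0 ∧
      ∀ (τ : Sep (Comp R M v) ≃ₐ[Comp R M v] Sep (Comp R M v))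
      (σ : Sep M ≃ₐ[M] Sep M), (∀ x, τ (ι' x) = ι' (σ x)) →
      act (sW A B) (rs M τ) P = P + act (sW A B) ι' (f σ) := by
    by_cases hc : (2 : ℕ) • (2 : ℕ) • P₁ = 0
    · obtain ⟨P0, hP0⟩ := hfar M R A B h6' hD v
      refine ⟨P₁ + act (sW A B) (incl M (Comp R M v) (Sep (Comp R M v))) P0, ?_, ?_⟩
      · rw [smul_add, smul_add, hc, zero_add, ← map_nsmul, ← map_nsmul]
        intro h0
        apply hP0
        apply act_inj (sW A B) (incl M (Comp R M v) (Sep (Comp R M v)))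
        rw [h0, map_zero]
      · intro τ σ hτσ
        rw [map_add, rs_act_incl, hP₁ τ σ hτσ]
        abel
    · refine ⟨P₁, hc, fun τ σ hτσ => ?_⟩
      rw [hP₁ τ σ hτσ]
      abel
  have hPP : (2 : ℕ) • P ≠ 0 := fun h0 => h4P (by rw [h0, smul_zero])
  -- the values of `h`
  have hval : ∀ t ∈ Z, eval (ι' t) ((h.map (algebraMap M (Comp R M v))).map
      (algebraMap (Comp R M v) (Sep (Comp R M v)))) = ι' (β t) ^ 2 := by
    intro t ht
    rw [Polynomial.map_map, ← IsScalarTower.algebraMap_eq, ← map_pow,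
      ← hh t ((mem_Z hZ t).1 ht), eval_map_algebraMap]
    exact aeval_algHom_apply ι' t h
  right
  obtain ⟨x, y, hxy, h2P, hrr⟩ := h1 M _ _ _ h6' hD P hPP
  obtain ⟨Q, hQ⟩ := fixed_point (K := M) (F := Comp R M v) (sW A B) ((2 : ℕ) • P) (by
      intro τ
      obtain ⟨σ, hσ⟩ := hres τ
      rw [map_nsmul, hTP τ σ hσ, smul_add, hT2, add_zero])
  rcases Q with _ | ⟨x0, y0, hq⟩
  · exact absurd hQ.symm hPP
  have hy0 : y0 ≠ 0 := by
    rintro rfl
    apply h4P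
    rw [← hQ, ← map_nsmul, two_smul_tor h6' hD hq, map_zero]
  rw [h2P] at hQ
  have hx0 : algebraMap (Comp R M v) (Sep (Comp R M v)) x0 = x := (Point.some.inj hQ).1
  obtain ⟨H, hH⟩ : ∃ H : (Comp R M v)[X],
    H = (C x0 - X) * h.map (algebraMap M (Comp R M v)) := ⟨_, rfl⟩
  suffices key : ∃ g : (Comp R M v)[X], cub (algebraMap M (Comp R M v) A)
      (algebraMap M (Comp R M v) B) ∣ H - g ^ 2 by
    rw [hH] at key
    exact ⟨x0, y0, hy0, eq_of_nonsing hq, key⟩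
  refine interp hZ hZ3 ι' hres (fun t => rr (ι' t) P * ι' (β t)) ?_ H ?_
  · intro τ σ hτσ t ht
    have hR := (mem_Z hZ t).1 ht
    have hR' : Rt A B (σ t) := Rt_map (σ : Sep M →ₐ[M] Sep M) hR
    have hR'' : Rt A B (ι' (σ t)) := Rt_map ι' hR'
    have e1 : τ (rr (ι' t) P) = rr (ι' (σ t)) (P + act (sW A B) ι' (f σ)) := by
      rw [← hTP τ σ hτσ, ← hτσ]
      exact ((h4 M _ _ _ _ (rs M τ) P (ι' t)).2).symm
    have e2 := h2 M _ _ _ h6' hD P _ hPP (hT2 σ) (ι' (σ t)) hR''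
    have e3 : sg (act (sW A B) ι' (f σ)) (ι' (σ t)) =
        ι' (sg (f σ) (σ t)) := (h4 M _ _ _ _ ι' (f σ) (σ t)).1
    have e4 : τ (ι' (β t)) = ι' (sg (f σ) (σ t)) * ι' (β (σ t)) := by
      rw [hτσ, (hβ t hR).2 σ, map_mul]
    show τ (rr (ι' t) P * ι' (β t)) = rr (ι' (σ t)) P * ι' (β (σ t))
    rw [map_mul, e1, e2, e3, e4]
    have e5 : ι' (sg (f σ) (σ t)) * ι' (sg (f σ) (σ t)) = 1 := by
      rw [← map_mul, sg_sq, map_one]
    linear_combination (rr (ι' (σ t)) P * ι' (β (σ t))) * e5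
  · intro t ht
    rw [hH, Polynomial.map_mul, eval_mul, hval t ht, Polynomial.map_sub, map_C, map_X, eval_sub,
      eval_C, eval_X, hx0]
    have e5 := hrr (ι' t) (Rt_map ι' ((mem_Z hZ t).1 ht))
    linear_combination (-(ι' (β t)) ^ 2) * e5

theorem t_GLRe (hfar : S_FARe) : S_GLRe := glre gp1 gp2 gp3 gp4 hfar

end Pool.Agent.L0h41.AV
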